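import Mathlib
import Pool.Agent.H2.Signed3

theorem Pool.Agent.Results.MP_25b479_co.Formula.result (n : ℕ) (hn : 0 < n) :
    (∀ p : ℕ, IsLeast {q : ℕ | q.Prime ∧ q ∣ n ∧ q % 3 = 2} p →
      IsGreatest {k : ℕ | ∃ A : Finset (ZMod n),
        (∀ a ∈ A, ∀ b ∈ A, ∀ c ∈ A, a + b + c ≠ 0 ∧ a + b ≠ c) ∧ A.card = k}
        ((p + 1) / 3 * (n / p))) ∧
    ((¬ ∃ q : ℕ, q.Prime ∧ q ∣ n ∧ q % 3 = 2) →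
      IsGreatest {k : ℕ | ∃ A : Finset (ZMod n),
        (∀ a ∈ A, ∀ b ∈ A, ∀ c ∈ A, a + b + c ≠ 0 ∧ a + b ≠ c) ∧ A.card = k} ((n - 1) / 3)) :=
  Pool.Agent.H2.ZeroFree.main3 n hn
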